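import Mathlib

/-!
# MP_130313_co: the additive constant in the perfect packing threshold grows quadratically

Let `δ(F, n)` be the least `k` such that every graph on `n` vertices with minimum degree at least
`k` has a perfect `F`-packing.  For every chromatic number `k ≥ 2` and every order `v ≥ k + 9` there
is a graph `F` with `χ(F) = k`, `|F| = v`, `hcf(F) = 1` such that for ALL large `n` divisible by `v`

`δ(F, n) > (1 - 1 / χ*(F)) n + ((v - k) ^ 2 - 8 v) / (4 (k - 1))`.

So for each chromatic number the additive constant has to be at least quadratic in `|F|` (with the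
leading coefficient `1 / (4 (χ(F) - 1))`), while Q1 asks whether `|F|` is enough.

The graphs: for `k ≥ 3` the complete `k`-partite graph with classes of sizes `1, ..., 1, p + 1, q + 1`,
for `k = 2` the disjoint union of the stars with `p + 1` and `q + 1` leaves, with `p` and `q` coprime.
The number of vertices of a perfect packing in a suitable class of a complete multipartite graph is
`σ(F) N` plus a number of the semigroup generated by `p` and `q`, and `p q - p - q` is not in it.
-/

set_option autoImplicit false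

namespace Pool.Agent.Results.MP_130313_co.QuadraticConstant

/-! ### The definitions of the problem -/

/-- The chromatic number of `F` as a natural number. -/
noncomputable def chi {V : Type} (F : SimpleGraph V) : ℕ := sInf {k : ℕ | F.Colorable k}

/-- `c` is an optimal colouring: a proper colouring that uses exactly `chi F` colours. -/
def IsOptimal {V : Type} (F : SimpleGraph V) (c : F.Coloring (Fin (chi F))) : Prop :=
  Function.Surjective c

/-- The size of the colour class of colour `i` in the colouring `c`. -/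
noncomputable def classSize {V : Type} (F : SimpleGraph V) (c : F.Coloring (Fin (chi F)))
    (i : Fin (chi F)) : ℕ := {v : V | c v = i}.ncard

/-- The minimum, over the optimal colourings of `F`, of the size of the smallest colour class. -/
noncomputable def sigma {V : Type} (F : SimpleGraph V) : ℕ :=
  sInf {m : ℕ | ∃ c : F.Coloring (Fin (chi F)), IsOptimal F c ∧ ∃ i, m = classSize F c i}

/-- The critical chromatic number of `F`. -/
noncomputable def chiCr {V : Type} (F : SimpleGraph V) : ℝ :=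
  ((chi F : ℝ) - 1) * (Nat.card V : ℝ) / ((Nat.card V : ℝ) - (sigma F : ℝ))

/-- The set of all differences `x (i+1) - x i` where `x 0 ≤ x 1 ≤ ...` are the class sizes of an
optimal colouring listed in increasing order (the permutation `e` lists the colours). -/
def diffSet {V : Type} (F : SimpleGraph V) : Set ℕ :=
  {d : ℕ | ∃ c : F.Coloring (Fin (chi F)), IsOptimal F c ∧
    ∃ e : Equiv.Perm (Fin (chi F)), Monotone (fun i => classSize F c (e i)) ∧
    ∃ (i : ℕ) (h : i + 1 < chi F),
      d = classSize F c (e ⟨i + 1, h⟩) - classSize F c (e ⟨i, Nat.lt_of_succ_lt h⟩)}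

/-- The statement `hcf(F) = 1` for a graph that is not bipartite: the only common divisor of the
set of differences is `1`. -/
def HcfOneNonbipartite {V : Type} (F : SimpleGraph V) : Prop :=
  ∀ m : ℕ, (∀ d ∈ diffSet F, m ∣ d) → m = 1

/-- The statement `hcf(F) = 1` for a bipartite graph: the highest common factor of the component
sizes is `1` and the highest common factor of the imbalances of the components is at most `2`. -/
def HcfOneBipartite {V : Type} (F : SimpleGraph V) : Prop :=
  (∀ m : ℕ, (∀ C : F.ConnectedComponent, m ∣ C.supp.ncard) → m = 1) ∧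
  (∀ m : ℕ, (∀ (c : F.Coloring Bool) (C : F.ConnectedComponent),
      (m : ℤ) ∣ ((C.supp ∩ {v | c v = true}).ncard : ℤ) - ((C.supp ∩ {v | c v = false}).ncard : ℤ))
        → m ≤ 2)

/-- The statement `hcf(F) = 1`. -/
def HcfOne {V : Type} (F : SimpleGraph V) : Prop :=
  (F.Colorable 2 → HcfOneBipartite F) ∧ (¬ F.Colorable 2 → HcfOneNonbipartite F)

open Classical in
/-- The parameter `χ*(F)`. -/
noncomputable def chiStar {V : Type} (F : SimpleGraph V) : ℝ :=
  if HcfOne F then chiCr F else (chi F : ℝ)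

/-- `G` has a perfect `F`-packing: a family of copies of `F` in `G` (injective homomorphisms)
such that every vertex of `G` lies in exactly one of them. -/
def HasPerfectPacking {V W : Type} (F : SimpleGraph V) (G : SimpleGraph W) : Prop :=
  ∃ (ι : Type) (φ : ι → (F →g G)), Function.Bijective (fun x : ι × V => φ x.1 x.2)

/-- The least `k` such that every graph on `n` vertices in which all degrees are at least `k`
has a perfect `F`-packing. -/
noncomputable def packingThreshold {V : Type} (F : SimpleGraph V) (n : ℕ) : ℕ :=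
  sInf {k : ℕ | ∀ G : SimpleGraph (Fin n),
    (∀ v, k ≤ (G.neighborSet v).ncard) → HasPerfectPacking F G}

/-! ### Arithmetic -/

/-- two coprime numbers with a given sum and a large product -/
theorem exists_pq (w : ℕ) (hw : 7 ≤ w) : ∃ p q : ℕ, p + q = w ∧ 3 ≤ p ∧ p ≤ q ∧ p.Coprime q ∧
    (p + 2).Coprime (q + 2) ∧ w ^ 2 ≤ 4 * (p * q) + 16 := by
  have key : ∀ a d : ℕ, Odd a → (d = 2 ∨ d = 4) → a.Coprime (a + d) := by
    intro a d ha hd
    rw [Nat.coprime_self_add_right]
    have h2 : a.Coprime 2 := Nat.coprime_comm.1 (Nat.coprime_two_left.2 ha)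
    rcases hd with rfl | rfl
    · exact h2
    · exact Nat.Coprime.pow_right 2 h2
  obtain ⟨m, hm⟩ : ∃ m, m = w / 4 := ⟨_, rfl⟩
  have h4 : w % 4 = 0 ∨ w % 4 = 1 ∨ w % 4 = 2 ∨ w % 4 = 3 := by omega
  rcases h4 with h | h | h | h
  · have hw' : w = 4 * m := by omega
    refine ⟨2 * m - 1, 2 * m - 1 + 2, by omega, by omega, by omega, ?_, ?_, ?_⟩
    · exact key _ _ ⟨m - 1, by omega⟩ (Or.inl rfl)
    · have := key (2 * m - 1 + 2) 2 ⟨m, by omega⟩ (Or.inl rfl)
      exact this
    · obtain ⟨j, rfl⟩ : ∃ j, m = j + 1 := ⟨m - 1, by omega⟩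
      have e : 2 * (j + 1) - 1 = 2 * j + 1 := by omega
      rw [e, hw']
      nlinarith
  · have hw' : w = 4 * m + 1 := by omega
    refine ⟨2 * m, 2 * m + 1, by omega, by omega, by omega, ?_, ?_, ?_⟩
    · simp
    · have e : 2 * m + 1 + 2 = 2 * m + 2 + 1 := by ring
      rw [e]
      simp
    · rw [hw']
      nlinarith
  · have hw' : w = 4 * m + 2 := by omega
    refine ⟨2 * m - 1, 2 * m - 1 + 4, by omega, by omega, by omega, ?_, ?_, ?_⟩
    · exact key _ _ ⟨m - 1, by omega⟩ (Or.inr rfl)
    · have := key (2 * m - 1 + 2) 4 ⟨m, by omega⟩ (Or.inr rfl)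
      have e : 2 * m - 1 + 4 + 2 = 2 * m - 1 + 2 + 4 := by ring
      rw [e]
      exact this
    · obtain ⟨j, rfl⟩ : ∃ j, m = j + 1 := ⟨m - 1, by omega⟩
      have e : 2 * (j + 1) - 1 = 2 * j + 1 := by omega
      rw [e, hw']
      nlinarith
  · have hw' : w = 4 * m + 3 := by omega
    refine ⟨2 * m + 1, 2 * m + 1 + 1, by omega, by omega, by omega, ?_, ?_, ?_⟩
    · simp
    · have e : 2 * m + 1 + 1 + 2 = 2 * m + 1 + 2 + 1 := by ring
      rw [e]
      simp
    · rw [hw']
      nlinarith

/-- the number `p q - p - q` is not in the semigroup generated by `p` and `q` -/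
theorem not_rep {p q : ℕ} (hp : 2 ≤ p) (hpq : p.Coprime q) {x : ℕ}
    (hx : x + p + q = p * q) (a b : ℕ) : p * a + q * b ≠ x := by
  intro h
  have h1 : p * (a + 1) + q * (b + 1) = p * q := by rw [← hx, ← h]; ring
  have h2 : p ∣ q * (b + 1) := by
    have : p ∣ p * (a + 1) + q * (b + 1) := by rw [h1]; exact Dvd.intro _ rfl
    exact (Nat.dvd_add_right (Dvd.intro _ rfl)).1 this
  have h3 : p ∣ b + 1 := hpq.dvd_of_dvd_mul_left h2
  obtain ⟨c, hc⟩ := h3
  have hc1 : 1 ≤ c := by
    rcases Nat.eq_zero_or_pos c with h0 | h0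
    · rw [h0] at hc
      omega
    · exact h0
  have h4 : q * (b + 1) = p * q * c := by rw [hc]; ring
  have h5 : p * q ≤ p * q * c := Nat.le_mul_of_pos_right _ hc1
  have h6 : 0 < p * (a + 1) := by positivity
  omega

/-! ### Blow-ups -/

/-- the blow-up of `H`: the vertex `j` is replaced by `sz j` vertices -/
def bl {J : Type} (H : SimpleGraph J) (sz : J → ℕ) : SimpleGraph (Σ j, Fin (sz j)) :=
  H.comap Sigma.fst

theorem bl_adj {J : Type} (H : SimpleGraph J) (sz : J → ℕ) (v w : Σ j, Fin (sz j)) :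
    (bl H sz).Adj v w ↔ H.Adj v.1 w.1 := Iff.rfl

theorem ncard_color {J : Type} [Fintype J] (sz : J → ℕ) {α : Type} [DecidableEq α]
    (f : (Σ j, Fin (sz j)) → α) (τ : J → α) (h : ∀ v, f v = τ v.1) (i : α) :
    {v | f v = i}.ncard = ∑ j, if τ j = i then sz j else 0 := by
  classical
  rw [Set.ncard_eq_toFinset_card']
  have : ({v | f v = i} : Set (Σ j, Fin (sz j))).toFinset =
      Finset.univ.filter (fun v => τ v.1 = i) := by
    ext v
    simp [h]
  rw [this, Finset.card_filter, Fintype.sum_sigma]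
  refine Finset.sum_congr rfl fun j _ => ?_
  by_cases hj : τ j = i <;> simp [hj]

theorem card_bl {J : Type} [Fintype J] (sz : J → ℕ) :
    Nat.card (Σ j, Fin (sz j)) = ∑ j, sz j := by
  rw [Nat.card_eq_fintype_card, Fintype.card_sigma]
  simp

/-! ### Host graphs -/

/-- the complete multipartite graph with the classes `{v | g v = i}` -/
def mp {V : Type} {k : ℕ} (g : V → Fin k) : SimpleGraph V := (⊤ : SimpleGraph (Fin k)).comap g

theorem mp_adj {V : Type} {k : ℕ} (g : V → Fin k) (v w : V) : (mp g).Adj v w ↔ g v ≠ g w := by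
  simp [mp]

/-- the obstruction -/
theorem no_packing {V : Type} [Finite V] (F : SimpleGraph V) {k : ℕ} (z : Fin k) (s p q x : ℕ)
    (hcol : ∀ c : F.Coloring (Fin k), ∃ a b : ℕ, {v | c v = z}.ncard = s + (p * a + q * b))
    (hx : ∀ a b : ℕ, p * a + q * b ≠ x) (N n : ℕ) (hV : 0 < Nat.card V)
    (hn : n = Nat.card V * N) (g : Fin n → Fin k) (h0 : {w | g w = z}.ncard = s * N + x) :
    ¬ HasPerfectPacking F (mp g) := by
  classical
  rintro ⟨ι, φ, hφ⟩
  have hVF : Fintype V := Fintype.ofFinite V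
  have hne : Nonempty V := (Nat.card_pos_iff.1 hV).1
  obtain ⟨v0⟩ := hne
  have hfin : Finite ι := by
    have hinj : Function.Injective (fun i : ι => φ i v0) := by
      intro i j hij
      have := @hφ.1 (i, v0) (j, v0) hij
      exact congrArg Prod.fst this
    exact Finite.of_injective _ hinj
  have : Fintype ι := Fintype.ofFinite ι
  have hcard : Fintype.card ι = N := by
    have h1 : Nat.card (ι × V) = Nat.card (Fin n) := Nat.card_congr (Equiv.ofBijective _ hφ)
    rw [Nat.card_prod, Nat.card_eq_fintype_card (α := ι), Nat.card_eq_fintype_card (α := Fin n),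
      Fintype.card_fin, hn, mul_comm] at h1
    exact Nat.eq_of_mul_eq_mul_left hV h1
  have hc : ∀ i : ι, ∃ a b : ℕ,
      (Finset.univ.filter (fun v : V => g (φ i v) = z)).card = s + (p * a + q * b) := by
    intro i
    let c : F.Coloring (Fin k) := SimpleGraph.Coloring.mk (fun v => g (φ i v)) (by
      intro v w h
      have := (φ i).map_adj h
      exact (mp_adj _ _ _).1 this)
    obtain ⟨a, b, hab⟩ := hcol c
    refine ⟨a, b, ?_⟩
    rw [← hab, Set.ncard_eq_toFinset_card']
    congr 1
    ext v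
    simp only [Finset.mem_filter, Finset.mem_univ, true_and, Set.mem_toFinset]
    exact Iff.rfl
  choose a b hab using hc
  have hsum : (Finset.univ.filter (fun w : Fin n => g w = z)).card
      = ∑ i : ι, (Finset.univ.filter (fun v : V => g (φ i v) = z)).card := by
    simp only [Finset.card_filter]
    rw [← hφ.sum_comp (fun w => if g w = z then 1 else 0), Fintype.sum_prod_type]
  have h0' : (Finset.univ.filter (fun w : Fin n => g w = z)).card = s * N + x := by
    rw [← h0, Set.ncard_eq_toFinset_card']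
    congr 1
    ext v
    simp
  rw [h0', Finset.sum_congr rfl fun i _ => hab i, Finset.sum_add_distrib, Finset.sum_add_distrib,
    ← Finset.mul_sum, ← Finset.mul_sum, Finset.sum_const, Finset.card_univ, hcard, smul_eq_mul,
    mul_comm s N] at hsum
  exact hx _ _ (Nat.add_left_cancel hsum).symm

/-- a map `Fin n → Fin k` with prescribed fibre sizes -/
theorem exists_map {k : ℕ} (n : ℕ) (t : Fin k → ℕ) (h : ∑ i, t i = n) :
    ∃ g : Fin n → Fin k, ∀ i, {w : Fin n | g w = i}.ncard = t i := by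
  have hc : Fintype.card (Fin n) = Fintype.card (Σ i : Fin k, Fin (t i)) := by
    rw [Fintype.card_sigma, Fintype.card_fin, ← h]
    simp
  let e : Fin n ≃ Σ i : Fin k, Fin (t i) := Fintype.equivOfCardEq hc
  refine ⟨fun w => (e w).1, fun i => ?_⟩
  have : {w : Fin n | (e w).1 = i} = Set.range (fun x : Fin (t i) => e.symm ⟨i, x⟩) := by
    ext w
    constructor
    · intro hw
      refine ⟨Fin.cast (congrArg t hw) (e w).2, ?_⟩
      change (e w).1 = i at hw
      subst hw
      simp
    · rintro ⟨x, rfl⟩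
      change (e (e.symm ⟨i, x⟩)).1 = i
      rw [Equiv.apply_symm_apply]
  have hinj : Function.Injective (fun x : Fin (t i) => e.symm ⟨i, x⟩) := by
    intro x y hxy
    have := e.symm.injective hxy
    simpa using this
  rw [this, ← Set.image_univ, Set.ncard_image_of_injective _ hinj, Set.ncard_univ,
    Nat.card_eq_fintype_card, Fintype.card_fin]

/-- degrees in a complete multipartite graph -/
theorem degree_mp {n k : ℕ} (g : Fin n → Fin k) (v : Fin n) :
    ((mp g).neighborSet v).ncard + {w : Fin n | g w = g v}.ncard = n := by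
  have : (mp g).neighborSet v = {w : Fin n | g w = g v}ᶜ := by
    ext w
    rw [SimpleGraph.mem_neighborSet, mp_adj, Set.mem_compl_iff]
    exact ne_comm
  rw [this, add_comm, Set.ncard_add_ncard_compl, Nat.card_eq_fintype_card, Fintype.card_fin]

/-- balanced partitions -/
theorem exists_balanced (K m : ℕ) (hK : 0 < K) :
    ∃ t : Fin K → ℕ, ∑ i, t i = m ∧ ∀ i, K * t i ≤ m + (K - 1) := by
  refine ⟨fun i => m / K + if i.val < m % K then 1 else 0, ?_, fun i => ?_⟩
  · rw [Finset.sum_add_distrib, Finset.sum_const, Finset.card_univ, Fintype.card_fin, smul_eq_mul]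
    have h1 : (∑ i : Fin K, if i.val < m % K then 1 else 0) = m % K := by
      rw [← Finset.card_filter]
      have h2 : (Finset.univ.filter fun i : Fin K => i.val < m % K) =
          Finset.univ.filter fun i : Fin K => i < (⟨m % K, Nat.mod_lt _ hK⟩ : Fin K) := by
        ext i
        simp [Fin.lt_def]
      rw [h2]
      have h3 := Fin.card_Iio (⟨m % K, Nat.mod_lt _ hK⟩ : Fin K)
      refine Eq.trans ?_ h3
      congr 1
      ext i
      simp
    rw [h1]
    exact Nat.div_add_mod m K
  · have h1 := Nat.div_add_mod m K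
    have h2 := Nat.mod_lt m hK
    simp only
    split_ifs with h
    · rw [mul_add, mul_one]
      omega
    · rw [add_zero]
      omega

/-- the threshold is larger than the minimum degree of every graph without a perfect packing -/
theorem lt_threshold {V : Type} (F : SimpleGraph V) {n : ℕ} (hn : 0 < n) (G : SimpleGraph (Fin n))
    (hG : ¬ HasPerfectPacking F G) (X : ℝ) (hX : ∀ v, X ≤ (G.neighborSet v).ncard) :
    X < packingThreshold F n := by
  by_contra hcon
  push Not at hcon
  have hne : n ∈ {k : ℕ | ∀ G : SimpleGraph (Fin n),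
      (∀ v, k ≤ (G.neighborSet v).ncard) → HasPerfectPacking F G} := by
    intro G hG
    exfalso
    have h1 := hG ⟨0, hn⟩
    have h2 : G.neighborSet ⟨0, hn⟩ ⊂ Set.univ := by
      rw [Set.ssubset_univ_iff]
      intro h
      have : (⟨0, hn⟩ : Fin n) ∈ G.neighborSet ⟨0, hn⟩ := by rw [h]; trivial
      exact G.loopless.irrefl _ this
    have h3 := Set.ncard_lt_ncard h2
    rw [Set.ncard_univ, Nat.card_eq_fintype_card, Fintype.card_fin] at h3
    omega
  have hmem := Nat.sInf_mem ⟨n, hne⟩
  refine hG (hmem G (fun v => ?_))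
  have h1 := hcon.trans (hX v)
  exact_mod_cast h1

/-- the host graphs: `k = K + 1` classes, the class `0` of size `s N + x` -/
theorem hosts {V : Type} [Finite V] (F : SimpleGraph V) (K : ℕ) (hK : 0 < K) (s p q x : ℕ)
    (hcol : ∀ c : F.Coloring (Fin (K + 1)), ∃ a b : ℕ,
      {v | c v = 0}.ncard = s + (p * a + q * b))
    (hx : ∀ a b : ℕ, p * a + q * b ≠ x) (hV : s * (K + 1) < Nat.card V) (N n : ℕ)
    (hN1 : 1 ≤ N) (hN : (K + 1) * x ≤ N) (hn : n = Nat.card V * N) :
    (∃ G : SimpleGraph (Fin n),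
      (∀ v, (n : ℝ) - ((n : ℝ) - s * N) / K + ((x : ℝ) - (K - 1)) / K ≤
        ((G.neighborSet v).ncard : ℝ)) ∧ ¬ HasPerfectPacking F G) ∧
    (n : ℝ) - ((n : ℝ) - s * N) / K + ((x : ℝ) - (K - 1)) / K < (packingThreshold F n : ℝ) := by
  have hV0 : 0 < Nat.card V := by omega
  have hKR : (0 : ℝ) < K := by exact_mod_cast hK
  -- the size of the class `0`
  have hle : (s * N + x) * (K + 1) ≤ n + 0 := by
    have h1 : (s * (K + 1) + 1) * N ≤ n := by
      rw [hn]
      exact Nat.mul_le_mul_right _ hV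
    nlinarith
  have hle' : s * N + x ≤ n := by nlinarith
  obtain ⟨t, ht1, ht2⟩ := exists_balanced K (n - (s * N + x)) hK
  obtain ⟨g, hg⟩ := exists_map n (Fin.cons (s * N + x) t : Fin (K + 1) → ℕ) (by
    rw [Fin.sum_univ_succ]
    simp only [Fin.cons_zero, Fin.cons_succ]
    rw [ht1]
    omega)
  have hg0 : {w : Fin n | g w = 0}.ncard = s * N + x := by
    have := hg 0
    simpa using this
  have hnp : ¬ HasPerfectPacking F (mp g) :=
    no_packing F 0 s p q x hcol hx N n hV0 hn g hg0
  have hdeg : ∀ v, (n : ℝ) - ((n : ℝ) - s * N) / K + ((x : ℝ) - (K - 1)) / K ≤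
      (((mp g).neighborSet v).ncard : ℝ) := by
    intro v
    have hd := degree_mp g v
    have hnat : K * {w : Fin n | g w = g v}.ncard + (s * N + x) ≤ n + (K - 1) := by
      by_cases hv : g v = 0
      · rw [hv, hg0]
        nlinarith
      · obtain ⟨j, hj⟩ := Fin.exists_succ_eq.2 hv
        rw [← hj, hg j.succ]
        simp only [Fin.cons_succ]
        have := ht2 j
        omega
    have hK1 : ((K - 1 : ℕ) : ℝ) = (K : ℝ) - 1 := by
      rw [Nat.cast_sub hK, Nat.cast_one]
    have hR : (K : ℝ) * ({w : Fin n | g w = g v}.ncard : ℝ) + (s * N + x) ≤ n + (K - 1) := by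
      rw [← hK1]
      exact_mod_cast hnat
    have hdR : (((mp g).neighborSet v).ncard : ℝ) + ({w : Fin n | g w = g v}.ncard : ℝ) = n := by
      exact_mod_cast hd
    have e : (n : ℝ) - ((n : ℝ) - s * N) / K + ((x : ℝ) - (K - 1)) / K =
        n - (n - s * N - x + (K - 1)) / K := by
      field_simp
      ring
    rw [e]
    have h2 : ({w : Fin n | g w = g v}.ncard : ℝ) ≤ (n - s * N - x + (K - 1)) / K := by
      rw [le_div_iff₀ hKR]
      linarith
    linarith
  refine ⟨⟨mp g, hdeg, hnp⟩, ?_⟩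
  refine lt_threshold F ?_ (mp g) hnp _ hdeg
  rw [hn]
  exact Nat.mul_pos hV0 (by omega)

/-- the bound in terms of the parameters of `F` -/
theorem main_of {V : Type} [Finite V] (F : SimpleGraph V) (K : ℕ) (hK : 0 < K) (s p q x : ℕ)
    (hchi : chi F = K + 1) (hsig : sigma F = s) (hhcf : HcfOne F)
    (hcol : ∀ c : F.Coloring (Fin (K + 1)), ∃ a b : ℕ,
      {v | c v = 0}.ncard = s + (p * a + q * b))
    (hx : ∀ a b : ℕ, p * a + q * b ≠ x) (hV : s * (K + 1) < Nat.card V) (N n : ℕ)
    (hN1 : 1 ≤ N) (hN : (K + 1) * x ≤ N) (hn : n = Nat.card V * N) :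
    (∃ G : SimpleGraph (Fin n),
      (∀ v, (1 - 1 / chiStar F) * (n : ℝ) + ((x : ℝ) - (K - 1)) / K ≤
        ((G.neighborSet v).ncard : ℝ)) ∧ ¬ HasPerfectPacking F G) ∧
    (1 - 1 / chiStar F) * (n : ℝ) + ((x : ℝ) - (K - 1)) / K < (packingThreshold F n : ℝ) := by
  have hKR : (0 : ℝ) < K := by exact_mod_cast hK
  have hV1 : s < Nat.card V := by nlinarith
  have hVR : (0 : ℝ) < Nat.card V := by
    have : 0 < Nat.card V := by omega
    exact_mod_cast this
  have hVs : (0 : ℝ) < (Nat.card V : ℝ) - s := by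
    have : (s : ℝ) < Nat.card V := by exact_mod_cast hV1
    linarith
  have e : (1 - 1 / chiStar F) * (n : ℝ) = (n : ℝ) - ((n : ℝ) - s * N) / K := by
    have h1 : chiStar F = K * (Nat.card V : ℝ) / ((Nat.card V : ℝ) - s) := by
      unfold chiStar
      rw [if_pos hhcf]
      unfold chiCr
      rw [hchi, hsig]
      push_cast
      ring_nf
    rw [h1, hn]
    push_cast
    field_simp
  rw [e]
  exact hosts F K hK s p q x hcol hx hV N n hN1 hN hn

/-! ### Colourings of blow-ups -/

section blow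

variable {J : Type} (H : SimpleGraph J) (sz : J → ℕ)

/-- a colouring of a blow-up -/
noncomputable def can {k : ℕ} (hchi : chi (bl H sz) = k) (τ : J → Fin k)
    (hτ : ∀ a b, H.Adj a b → τ a ≠ τ b) : (bl H sz).Coloring (Fin (chi (bl H sz))) :=
  SimpleGraph.Coloring.mk (fun v => Fin.cast hchi.symm (τ v.1)) (by
    intro v w h h2
    exact hτ _ _ ((bl_adj _ _ _ _).1 h) (Fin.cast_injective _ h2))

theorem can_apply {k : ℕ} (hchi : chi (bl H sz) = k) (τ : J → Fin k)
    (hτ : ∀ a b, H.Adj a b → τ a ≠ τ b) (v : Σ j, Fin (sz j)) :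
    can H sz hchi τ hτ v = Fin.cast hchi.symm (τ v.1) := rfl

theorem can_size [Fintype J] {k : ℕ} (hchi : chi (bl H sz) = k) (τ : J → Fin k)
    (hτ : ∀ a b, H.Adj a b → τ a ≠ τ b) (i : Fin (chi (bl H sz))) :
    classSize (bl H sz) (can H sz hchi τ hτ) i =
      ∑ j, if τ j = Fin.cast hchi i then sz j else 0 := by
  unfold classSize
  rw [ncard_color sz (fun v => can H sz hchi τ hτ v) (fun j => Fin.cast hchi.symm (τ j))
    (fun v => can_apply H sz hchi τ hτ v) i]
  refine Finset.sum_congr rfl fun j _ => ?_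
  have : (Fin.cast hchi.symm (τ j) = i) ↔ (τ j = Fin.cast hchi i) := by
    constructor
    · rintro rfl
      rfl
    · intro h
      rw [h]
      rfl
  simp only [this]

theorem can_opt {k : ℕ} (hchi : chi (bl H sz) = k) (τ : J → Fin k)
    (hτ : ∀ a b, H.Adj a b → τ a ≠ τ b) (hsurj : Function.Surjective τ) (hpos : ∀ j, 0 < sz j) :
    IsOptimal (bl H sz) (can H sz hchi τ hτ) := by
  intro i
  obtain ⟨j, hj⟩ := hsurj (Fin.cast hchi i)
  refine ⟨⟨j, ⟨0, hpos j⟩⟩, ?_⟩
  rw [can_apply]
  change Fin.cast hchi.symm (τ j) = i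
  rw [hj]
  rfl

end blow

theorem sigma_of {V : Type} (F : SimpleGraph V) (s : ℕ)
    (h1 : ∃ c : F.Coloring (Fin (chi F)), IsOptimal F c ∧ ∃ i, s = classSize F c i)
    (h2 : ∀ (c : F.Coloring (Fin (chi F))) (i : Fin (chi F)), s ≤ classSize F c i) :
    sigma F = s := by
  apply le_antisymm
  · exact Nat.sInf_le h1
  · have hmem := Nat.sInf_mem (⟨s, h1⟩ : {m : ℕ | ∃ c : F.Coloring (Fin (chi F)),
      IsOptimal F c ∧ ∃ i, m = classSize F c i}.Nonempty)
    obtain ⟨c, _, i, hi⟩ := hmem
    have := h2 c i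
    unfold sigma
    omega

/-! ### Complete multipartite graphs -/

/-- a colouring of a complete multipartite graph with as many colours as classes -/
theorem exists_part {J α : Type} [Fintype J] [Fintype α] (hα : Fintype.card α = Fintype.card J)
    (sz : J → ℕ) (hpos : ∀ j, 0 < sz j) (c : (bl (⊤ : SimpleGraph J) sz).Coloring α) :
    ∃ τ : J ≃ α, ∀ v, c v = τ v.1 := by
  classical
  have hinj : Function.Injective (fun j : J => c ⟨j, ⟨0, hpos j⟩⟩) := by
    intro i j hij
    by_contra hne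
    have : (bl (⊤ : SimpleGraph J) sz).Adj ⟨i, ⟨0, hpos i⟩⟩ ⟨j, ⟨0, hpos j⟩⟩ := by
      rw [bl_adj]
      simpa using hne
    exact c.valid this hij
  have hbij : Function.Bijective (fun j : J => c ⟨j, ⟨0, hpos j⟩⟩) := by
    rw [Fintype.bijective_iff_injective_and_card]
    exact ⟨hinj, hα.symm⟩
  refine ⟨Equiv.ofBijective _ hbij, fun v => ?_⟩
  obtain ⟨k, hk⟩ := hbij.2 (c v)
  have hk' : k = v.1 := by
    by_contra hne
    have : (bl (⊤ : SimpleGraph J) sz).Adj ⟨k, ⟨0, hpos k⟩⟩ v := by
      rw [bl_adj]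
      simpa using hne
    exact c.valid this hk
  subst hk'
  exact hk.symm

theorem chi_top {k : ℕ} (sz : Fin k → ℕ) (hpos : ∀ j, 0 < sz j) :
    chi (bl (⊤ : SimpleGraph (Fin k)) sz) = k := by
  have hk : (bl (⊤ : SimpleGraph (Fin k)) sz).Colorable k :=
    ⟨SimpleGraph.Coloring.mk (fun v => v.1) (by
      intro v w h
      rw [bl_adj] at h
      simpa using h)⟩
  apply le_antisymm
  · exact Nat.sInf_le hk
  · have hmem : chi (bl (⊤ : SimpleGraph (Fin k)) sz) ∈
        {m : ℕ | (bl (⊤ : SimpleGraph (Fin k)) sz).Colorable m} := Nat.sInf_mem ⟨k, hk⟩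
    obtain ⟨c⟩ := hmem
    have hinj : Function.Injective (fun j : Fin k => c ⟨j, ⟨0, hpos j⟩⟩) := by
      intro i j hij
      by_contra hne
      have : (bl (⊤ : SimpleGraph (Fin k)) sz).Adj ⟨i, ⟨0, hpos i⟩⟩ ⟨j, ⟨0, hpos j⟩⟩ := by
        rw [bl_adj]
        simpa using hne
      exact c.valid this hij
    have := Fintype.card_le_of_injective _ hinj
    simpa using this

theorem size_top {k : ℕ} (sz : Fin k → ℕ) (hpos : ∀ j, 0 < sz j) {α : Type} [Fintype α]
    [DecidableEq α] (hα : Fintype.card α = k) (c : (bl (⊤ : SimpleGraph (Fin k)) sz).Coloring α)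
    (i : α) : ∃ j, {v | c v = i}.ncard = sz j := by
  obtain ⟨τ, hτ⟩ := exists_part (by simp [hα]) sz hpos c
  refine ⟨τ.symm i, ?_⟩
  rw [ncard_color sz (fun v => c v) τ hτ i, Finset.sum_eq_single (τ.symm i)]
  · simp
  · intro j _ hj
    rw [if_neg]
    intro h
    apply hj
    rw [← h]
    simp
  · intro h
    exact absurd (Finset.mem_univ _) h

/-- the class sizes `1, ..., 1, p + 1, q + 1` -/
def szk (K p q : ℕ) (i : Fin (K + 2)) : ℕ :=
  if i.val < K then 1 else if i.val = K then p + 1 else q + 1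

theorem szk_pos (K p q : ℕ) (i : Fin (K + 2)) : 0 < szk K p q i := by
  unfold szk
  split_ifs <;> omega

theorem szk_lt {K p q : ℕ} {i : Fin (K + 2)} (h : i.val < K) : szk K p q i = 1 := by
  unfold szk
  rw [if_pos h]

theorem szk_eqK {K p q : ℕ} {i : Fin (K + 2)} (h : i.val = K) : szk K p q i = p + 1 := by
  unfold szk
  rw [if_neg (by omega), if_pos h]

theorem szk_gt {K p q : ℕ} {i : Fin (K + 2)} (h : i.val = K + 1) : szk K p q i = q + 1 := by
  unfold szk
  rw [if_neg (by omega), if_neg (by omega)]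

theorem szk_sum (K p q : ℕ) : ∑ i, szk K p q i = K + 2 + p + q := by
  rw [Fin.sum_univ_castSucc, Fin.sum_univ_castSucc]
  have h1 : ∀ i : Fin K, szk K p q i.castSucc.castSucc = 1 := by
    intro i
    unfold szk
    rw [if_pos]
    simp
  rw [Finset.sum_congr rfl fun i _ => h1 i]
  simp [szk]
  ring

theorem szk_mono {K p q : ℕ} (hpq : p ≤ q) : Monotone (szk K p q) := by
  intro a b hab
  have : a.val ≤ b.val := hab
  unfold szk
  split_ifs <;> omega

theorem szk_form (K p q : ℕ) (i : Fin (K + 2)) : ∃ a b : ℕ, szk K p q i = 1 + (p * a + q * b) := by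
  unfold szk
  split_ifs
  · exact ⟨0, 0, by simp⟩
  · exact ⟨1, 0, by ring⟩
  · exact ⟨0, 1, by ring⟩

/-- the graph for `k = K + 2 ≥ 3` -/
abbrev FA (K p q : ℕ) : SimpleGraph (Σ j, Fin (szk K p q j)) :=
  bl (⊤ : SimpleGraph (Fin (K + 2))) (szk K p q)

theorem chi_FA (K p q : ℕ) : chi (FA K p q) = K + 2 := chi_top _ (szk_pos K p q)

theorem canA_size (K p q : ℕ) (i : Fin (chi (FA K p q))) :
    classSize (FA K p q) (can _ _ (chi_FA K p q) id (fun a b h => by simpa using h)) i =
      szk K p q (Fin.cast (chi_FA K p q) i) := by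
  refine (can_size _ _ (chi_FA K p q) id _ i).trans ?_
  simp only [id_eq]
  rw [Finset.sum_ite_eq' Finset.univ (Fin.cast (chi_FA K p q) i) (szk K p q)]
  simp

theorem sigma_FA (K p q : ℕ) (hK : 0 < K) : sigma (FA K p q) = 1 := by
  apply sigma_of
  · refine ⟨can _ _ (chi_FA K p q) id (fun a b h => by simpa using h),
      can_opt _ _ _ _ _ Function.surjective_id (szk_pos K p q),
      Fin.cast (chi_FA K p q).symm ⟨0, by omega⟩, ?_⟩
    rw [canA_size, szk_lt]
    exact hK
  · intro c i
    obtain ⟨j, hj⟩ := size_top (szk K p q) (szk_pos K p q) (α := Fin (chi (FA K p q)))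
      (by simp [chi_FA]) c i
    have h : classSize (FA K p q) c i = szk K p q j := hj
    rw [h]
    exact szk_pos K p q j

theorem hcf_FA {K p q : ℕ} (hK : 0 < K) (hpq : p ≤ q) (hc : p.Coprime q) :
    HcfOne (FA K p q) := by
  have hnc : ¬ (FA K p q).Colorable 2 := by
    intro h
    have h1 : chi (FA K p q) ≤ 2 := Nat.sInf_le h
    rw [chi_FA] at h1
    omega
  refine ⟨fun h => absurd h hnc, fun _ m hm => ?_⟩
  have hmono : Monotone (fun i => classSize (FA K p q)
      (can _ _ (chi_FA K p q) id (fun a b h => by simpa using h)) ((Equiv.refl _) i)) := by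
    intro i j hij
    simp only [Equiv.refl_apply]
    rw [canA_size, canA_size]
    exact szk_mono hpq (show (Fin.cast (chi_FA K p q) i).val ≤ (Fin.cast (chi_FA K p q) j).val from hij)
  have h1 : p ∈ diffSet (FA K p q) := by
    refine ⟨can _ _ (chi_FA K p q) id (fun a b h => by simpa using h),
      can_opt _ _ _ _ _ Function.surjective_id (szk_pos K p q), Equiv.refl _, hmono, K - 1,
      by rw [chi_FA]; omega, ?_⟩
    simp only [Equiv.refl_apply]
    rw [canA_size, canA_size, szk_eqK, szk_lt]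
    · omega
    · change K - 1 < K
      omega
    · change K - 1 + 1 = K
      omega
  have h2 : q - p ∈ diffSet (FA K p q) := by
    refine ⟨can _ _ (chi_FA K p q) id (fun a b h => by simpa using h),
      can_opt _ _ _ _ _ Function.surjective_id (szk_pos K p q), Equiv.refl _, hmono, K,
      by rw [chi_FA]; omega, ?_⟩
    simp only [Equiv.refl_apply]
    rw [canA_size, canA_size, szk_gt, szk_eqK]
    · omega
    · rfl
    · rfl
  have d1 := hm _ h1
  have d2 := hm _ h2
  have d3 : m ∣ q := by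
    have := Nat.dvd_add d1 d2
    rwa [Nat.add_sub_cancel' hpq] at this
  exact Nat.dvd_one.1 (hc ▸ Nat.dvd_gcd d1 d3)

/-! ### Disjoint unions of two stars -/

/-- two disjoint edges -/
def HB : SimpleGraph (Bool × Bool) where
  Adj a b := a.1 = b.1 ∧ a.2 ≠ b.2
  symm := ⟨fun _ _ h => ⟨h.1.symm, h.2.symm⟩⟩
  loopless := ⟨fun _ h => h.2 rfl⟩

/-- one centre and `p + 1` or `q + 1` leaves -/
def szb (p q : ℕ) (j : Bool × Bool) : ℕ := if j.2 then (if j.1 then q + 1 else p + 1) else 1

theorem szb_pos (p q : ℕ) (j : Bool × Bool) : 0 < szb p q j := by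
  unfold szb
  split_ifs <;> omega

theorem szb_ff {p q : ℕ} (b : Bool) : szb p q (b, false) = 1 := by simp [szb]

theorem szb_ft {p q : ℕ} : szb p q (false, true) = p + 1 := by simp [szb]

theorem szb_tt {p q : ℕ} : szb p q (true, true) = q + 1 := by simp [szb]

theorem szb_sum (p q : ℕ) : ∑ j, szb p q j = p + q + 4 := by
  simp only [Fintype.sum_prod_type, Fintype.sum_bool, szb_ff, szb_ft, szb_tt]
  omega

/-- the disjoint union of the stars with `p + 1` and `q + 1` leaves -/
abbrev FB (p q : ℕ) : SimpleGraph (Σ j, Fin (szb p q j)) := bl HB (szb p q)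

/-- a vertex of each part -/
def rp (p q : ℕ) (j : Bool × Bool) : Σ j, Fin (szb p q j) := ⟨j, ⟨0, szb_pos p q j⟩⟩

theorem FB_adj {p q : ℕ} {v w : Σ j, Fin (szb p q j)} :
    (FB p q).Adj v w ↔ v.1.1 = w.1.1 ∧ v.1.2 ≠ w.1.2 := Iff.rfl

theorem two_elt {α : Type} [Fintype α] (hα : Fintype.card α = 2) {a b c : α}
    (h1 : a ≠ b) (h2 : c ≠ b) : a = c := by
  classical
  by_contra h
  have h3 : ({a, b, c} : Finset α).card ≤ Fintype.card α := Finset.card_le_univ _
  rw [Finset.card_insert_of_notMem, Finset.card_insert_of_notMem, Finset.card_singleton] at h3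
  · omega
  · simpa using h2.symm
  · simp [h1, h]

theorem exists_partB {p q : ℕ} {α : Type} [Fintype α] (hα : Fintype.card α = 2)
    (c : (FB p q).Coloring α) : ∃ τ : Bool × Bool → α, (∀ b, τ (b, false) ≠ τ (b, true)) ∧
      ∀ v, c v = τ v.1 := by
  refine ⟨fun j => c (rp p q j), fun b => c.valid (FB_adj.2 ⟨rfl, by simp [rp]⟩), fun v => ?_⟩
  have h1 : c v ≠ c (rp p q (v.1.1, !v.1.2)) := c.valid (FB_adj.2 ⟨rfl, by simp [rp]⟩)
  have h2 : c (rp p q v.1) ≠ c (rp p q (v.1.1, !v.1.2)) :=
    c.valid (FB_adj.2 ⟨rfl, by simp [rp]⟩)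
  exact two_elt hα h1 h2

theorem size_FB {p q : ℕ} {α : Type} [Fintype α] [DecidableEq α] (hα : Fintype.card α = 2)
    (c : (FB p q).Coloring α) (i : α) :
    ∃ a b : ℕ, {v | c v = i}.ncard = 2 + (p * a + q * b) := by
  obtain ⟨τ, hτ, hc⟩ := exists_partB hα c
  have hone : ∀ b, (τ (b, false) = i ∧ τ (b, true) ≠ i) ∨ (τ (b, false) ≠ i ∧ τ (b, true) = i) := by
    intro b
    by_cases h : τ (b, false) = i
    · left
      refine ⟨h, fun h2 => hτ b (h.trans h2.symm)⟩
    · right
      refine ⟨h, ?_⟩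
      exact (two_elt hα (fun h2 => h h2.symm) (hτ b).symm).symm
  rw [ncard_color (szb p q) (fun v => c v) τ hc i]
  simp only [Fintype.sum_prod_type, Fintype.sum_bool, szb_ff, szb_ft, szb_tt]
  rcases hone false with ⟨h1, h2⟩ | ⟨h1, h2⟩ <;> rcases hone true with ⟨h3, h4⟩ | ⟨h3, h4⟩
  · refine ⟨0, 0, ?_⟩
    rw [if_pos h1, if_neg h2, if_pos h3, if_neg h4]
    omega
  · refine ⟨0, 1, ?_⟩
    rw [if_pos h1, if_neg h2, if_neg h3, if_pos h4]
    omega
  · refine ⟨1, 0, ?_⟩
    rw [if_neg h1, if_pos h2, if_pos h3, if_neg h4]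
    omega
  · refine ⟨1, 1, ?_⟩
    rw [if_neg h1, if_pos h2, if_neg h3, if_pos h4]
    omega

/-- the canonical colours -/
def tb (j : Bool × Bool) : Fin 2 := if j.2 then 1 else 0

theorem tb_proper (a b : Bool × Bool) (h : HB.Adj a b) : tb a ≠ tb b := by
  obtain ⟨a1, a2⟩ := a
  obtain ⟨b1, b2⟩ := b
  have h2 : a2 ≠ b2 := h.2
  cases a2 <;> cases b2 <;> simp_all [tb]

theorem tb_surj : Function.Surjective tb := by
  intro i
  fin_cases i
  · exact ⟨(true, false), by simp [tb]⟩
  · exact ⟨(true, true), by simp [tb]⟩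

theorem colorable_FB (p q : ℕ) : (FB p q).Colorable 2 :=
  ⟨SimpleGraph.Coloring.mk (fun v => tb v.1) (fun h => tb_proper _ _ h)⟩

theorem chi_FB (p q : ℕ) : chi (FB p q) = 2 := by
  apply le_antisymm
  · exact Nat.sInf_le (colorable_FB p q)
  · have hmem : chi (FB p q) ∈ {m : ℕ | (FB p q).Colorable m} :=
      Nat.sInf_mem ⟨2, colorable_FB p q⟩
    obtain ⟨c⟩ := hmem
    have h1 : c (rp p q (true, false)) ≠ c (rp p q (true, true)) :=
      c.valid (FB_adj.2 ⟨rfl, by simp [rp]⟩)
    have h2 := (c (rp p q (true, false))).isLt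
    have h3 := (c (rp p q (true, true))).isLt
    have h4 : (c (rp p q (true, false))).val ≠ (c (rp p q (true, true))).val :=
      fun h => h1 (Fin.ext h)
    omega

theorem sigma_FB (p q : ℕ) : sigma (FB p q) = 2 := by
  apply sigma_of
  · refine ⟨can _ _ (chi_FB p q) tb tb_proper, can_opt _ _ _ _ _ tb_surj (szb_pos p q),
      Fin.cast (chi_FB p q).symm 0, ?_⟩
    rw [can_size]
    have e : Fin.cast (chi_FB p q) (Fin.cast (chi_FB p q).symm 0) = 0 := rfl
    rw [e]
    simp [Fintype.sum_prod_type, szb_ff, tb]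
  · intro c i
    obtain ⟨a, b, h⟩ := size_FB (α := Fin (chi (FB p q))) (by simp [chi_FB]) c i
    have h' : classSize (FB p q) c i = 2 + (p * a + q * b) := h
    omega

theorem reach_FB {p q : ℕ} {v w : Σ j, Fin (szb p q j)} (h : (FB p q).Reachable v w) :
    v.1.1 = w.1.1 := by
  obtain ⟨W⟩ := h
  induction W with
  | nil => rfl
  | cons hadj _ ih => exact (FB_adj.1 hadj).1.trans ih

theorem supp_FB {p q : ℕ} (b : Bool) :
    ((FB p q).connectedComponentMk (rp p q (b, false))).supp = {v | v.1.1 = b} := by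
  ext v
  rw [SimpleGraph.ConnectedComponent.mem_supp_iff, SimpleGraph.ConnectedComponent.eq]
  constructor
  · intro h
    exact reach_FB h
  · intro h
    change v.1.1 = b at h
    by_cases h2 : v.1.2 = true
    · refine SimpleGraph.Adj.reachable (FB_adj.2 ⟨h, ?_⟩)
      rw [h2]
      simp [rp]
    · have h3 : v = rp p q (b, false) := by
        obtain ⟨⟨v1, v2⟩, v3⟩ := v
        simp only at h h2
        have h4 : v2 = false := by simpa using h2
        subst h h4
        have h5 : v3.val < 1 := lt_of_lt_of_eq v3.isLt (szb_ff v1)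
        unfold rp
        congr 1
        ext
        change v3.val = 0
        omega
      rw [h3]

theorem hcf_FB {p q : ℕ} (hc : p.Coprime q) (hc2 : (p + 2).Coprime (q + 2)) :
    HcfOne (FB p q) := by
  classical
  refine ⟨fun _ => ⟨fun m hm => ?_, fun m hm => ?_⟩, fun h => absurd (colorable_FB p q) h⟩
  · have h1 := hm ((FB p q).connectedComponentMk (rp p q (false, false)))
    have h2 := hm ((FB p q).connectedComponentMk (rp p q (true, false)))
    rw [supp_FB, ncard_color (szb p q) (fun v => v.1.1) Prod.fst (fun _ => rfl)] at h1 h2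
    simp only [Fintype.sum_prod_type, Fintype.sum_bool, szb_ff, szb_ft, szb_tt] at h1 h2
    simp at h1 h2
    have e1 : m ∣ p + 2 := by
      have : p + 1 + 1 = p + 2 := rfl
      rwa [this] at h1
    have e2 : m ∣ q + 2 := by
      have : q + 1 + 1 = q + 2 := rfl
      rwa [this] at h2
    exact Nat.dvd_one.1 (hc2 ▸ Nat.dvd_gcd e1 e2)
  · have hcol : ∀ b x : Bool, (((FB p q).connectedComponentMk (rp p q (b, false))).supp ∩
        {v | (SimpleGraph.Coloring.mk (fun v => v.1.2) (fun {v w} h => (FB_adj.1 h).2) :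
          (FB p q).Coloring Bool) v = x}).ncard = szb p q (b, x) := by
      intro b x
      rw [supp_FB]
      have : {v : Σ j, Fin (szb p q j) | v.1.1 = b} ∩
          {v | (SimpleGraph.Coloring.mk (fun v => v.1.2) (fun {v w} h => (FB_adj.1 h).2) :
          (FB p q).Coloring Bool) v = x} = {v | v.1 = (b, x)} := by
        ext v
        constructor
        · rintro ⟨h1, h2⟩
          exact Prod.ext h1 h2
        · intro h
          exact ⟨congrArg Prod.fst h, congrArg Prod.snd h⟩
      rw [this, ncard_color (szb p q) (fun v => v.1) id (fun _ => rfl)]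
      simp
    have h1 := hm (SimpleGraph.Coloring.mk (fun v => v.1.2) (fun {v w} h => (FB_adj.1 h).2))
      ((FB p q).connectedComponentMk (rp p q (false, false)))
    have h2 := hm (SimpleGraph.Coloring.mk (fun v => v.1.2) (fun {v w} h => (FB_adj.1 h).2))
      ((FB p q).connectedComponentMk (rp p q (true, false)))
    rw [hcol, hcol, szb_ff, szb_ft] at h1
    rw [hcol, hcol, szb_ff, szb_tt] at h2
    have e1 : m ∣ p := by
      have : (((p + 1 : ℕ) : ℤ) - ((1 : ℕ) : ℤ)) = (p : ℤ) := by push_cast; ring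
      rw [this] at h1
      exact_mod_cast h1
    have e2 : m ∣ q := by
      have : (((q + 1 : ℕ) : ℤ) - ((1 : ℕ) : ℤ)) = (q : ℤ) := by push_cast; ring
      rw [this] at h2
      exact_mod_cast h2
    have : m = 1 := Nat.dvd_one.1 (hc ▸ Nat.dvd_gcd e1 e2)
    omega

/-! ### The result -/

/-- the additive constant -/
noncomputable def cst (k v : ℕ) : ℝ := (((v : ℝ) - k) ^ 2 - 8 * v) / (4 * (k - 1))

theorem finish {V : Type} [Finite V] (F : SimpleGraph V) (K : ℕ) (hK : 0 < K) (s p q x : ℕ)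
    (hchi : chi F = K + 1) (hsig : sigma F = s) (hhcf : HcfOne F)
    (hcol : ∀ c : F.Coloring (Fin (K + 1)), ∃ a b : ℕ,
      {v | c v = 0}.ncard = s + (p * a + q * b))
    (hx : ∀ a b : ℕ, p * a + q * b ≠ x) (hV : s * (K + 1) < Nat.card V)
    (hb : cst (K + 1) (Nat.card V) ≤ ((x : ℝ) - (K - 1)) / K) :
    ∃ n₀ : ℕ, ∀ n : ℕ, n₀ ≤ n → Nat.card V ∣ n →
      (∃ G : SimpleGraph (Fin n),
        (∀ w, (1 - 1 / chiStar F) * (n : ℝ) + cst (K + 1) (Nat.card V) ≤
          ((G.neighborSet w).ncard : ℝ)) ∧ ¬ HasPerfectPacking F G) ∧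
      (1 - 1 / chiStar F) * (n : ℝ) + cst (K + 1) (Nat.card V) < (packingThreshold F n : ℝ) := by
  refine ⟨Nat.card V * ((K + 1) * x + 1), fun n hn hdvd => ?_⟩
  obtain ⟨N, hN⟩ := hdvd
  have hV0 : 0 < Nat.card V := by omega
  have hN1 : (K + 1) * x + 1 ≤ N := by
    rw [hN] at hn
    exact Nat.le_of_mul_le_mul_left hn hV0
  obtain ⟨⟨G, hG1, hG2⟩, h⟩ := main_of F K hK s p q x hchi hsig hhcf hcol hx hV N n (by omega)
    (by omega) hN
  refine ⟨⟨G, fun w => ?_, hG2⟩, ?_⟩
  · have := hG1 w
    linarith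
  · linarith

/-- **The additive constant in the perfect packing threshold is at least quadratic, for every
chromatic number, every order and all large `n`.** -/
theorem main (k v : ℕ) (hk : 2 ≤ k) (hv : k + 9 ≤ v) :
    ∃ (V : Type) (_ : Finite V) (F : SimpleGraph V), Nat.card V = v ∧ (∃ a b, F.Adj a b) ∧
      chi F = k ∧ HcfOne F ∧ ∃ n₀ : ℕ, ∀ n : ℕ, n₀ ≤ n → v ∣ n →
      (∃ G : SimpleGraph (Fin n),
        (∀ w, (1 - 1 / chiStar F) * (n : ℝ) + (((v : ℝ) - k) ^ 2 - 8 * v) / (4 * (k - 1)) ≤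
          ((G.neighborSet w).ncard : ℝ)) ∧ ¬ HasPerfectPacking F G) ∧
      (1 - 1 / chiStar F) * (n : ℝ) + (((v : ℝ) - k) ^ 2 - 8 * v) / (4 * (k - 1)) <
        (packingThreshold F n : ℝ) := by
  rcases Nat.eq_or_lt_of_le hk with rfl | hk3
  · -- two stars
    obtain ⟨p, q, hpq, hp3, hle, hc, hc2, hbig⟩ := exists_pq (v - 4) (by omega)
    have hq3 : 3 ≤ q := hp3.trans hle
    have hge : p + q ≤ p * q := by nlinarith
    obtain ⟨x, hx⟩ : ∃ x, x + p + q = p * q := ⟨p * q - (p + q), by omega⟩
    have hcard : Nat.card (Σ j, Fin (szb p q j)) = v := by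
      rw [card_bl, szb_sum]
      omega
    refine ⟨_, inferInstance, FB p q, hcard, ⟨rp p q (true, false), rp p q (true, true),
      FB_adj.2 ⟨rfl, by simp [rp]⟩⟩, chi_FB p q, hcf_FB hc hc2, ?_⟩
    have h := finish (FB p q) 1 one_pos 2 p q x (chi_FB p q) (sigma_FB p q) (hcf_FB hc hc2)
      (fun c => size_FB (by simp) c 0) (not_rep (by omega) hc hx) (by rw [hcard]; omega) (by
        rw [hcard]
        unfold cst
        have hxR : (x : ℝ) + p + q = p * q := by exact_mod_cast hx
        have hsR : (p : ℝ) + q = v - 4 := by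
          have : p + q + 4 = v := by omega
          have : (p : ℝ) + q + 4 = v := by exact_mod_cast this
          linarith
        have hbR : ((v : ℝ) - 4) ^ 2 ≤ 4 * (p * q) + 16 := by
          rw [← hsR]
          have h5 : (p + q) ^ 2 ≤ 4 * (p * q) + 16 := by rw [hpq]; exact hbig
          exact_mod_cast h5
        push_cast
        rw [div_le_iff₀ (by norm_num)]
        nlinarith)
    rw [hcard] at h
    exact h
  · obtain ⟨K, rfl⟩ : ∃ K, k = K + 2 := ⟨k - 2, by omega⟩
    have hK : 0 < K := by omega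
    obtain ⟨p, q, hpq, hp3, hle, hc, hc2, hbig⟩ := exists_pq (v - (K + 2)) (by omega)
    have hq3 : 3 ≤ q := hp3.trans hle
    have hge : p + q ≤ p * q := by nlinarith
    obtain ⟨x, hx⟩ : ∃ x, x + p + q = p * q := ⟨p * q - (p + q), by omega⟩
    have hcard : Nat.card (Σ j, Fin (szk K p q j)) = v := by
      rw [card_bl, szk_sum]
      omega
    refine ⟨_, inferInstance, FA K p q, hcard, ⟨⟨0, ⟨0, szk_pos K p q 0⟩⟩,
      ⟨1, ⟨0, szk_pos K p q 1⟩⟩, by rw [bl_adj]; simp⟩, chi_FA K p q, hcf_FA hK hle hc, ?_⟩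
    have h := finish (FA K p q) (K + 1) (by omega) 1 p q x (chi_FA K p q) (sigma_FA K p q hK)
      (hcf_FA hK hle hc) (fun c => by
        obtain ⟨j, hj⟩ := size_top (szk K p q) (szk_pos K p q) (by simp) c 0
        obtain ⟨a, b, hab⟩ := szk_form K p q j
        exact ⟨a, b, by rw [hj, hab]⟩) (not_rep (by omega) hc hx) (by rw [hcard]; omega) (by
        rw [hcard]
        unfold cst
        have hxR : (x : ℝ) + p + q = p * q := by exact_mod_cast hx
        have hsR : (p : ℝ) + q = v - (K + 2) := by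
          have : p + q + (K + 2) = v := by omega
          have : (p : ℝ) + q + (K + 2) = v := by exact_mod_cast this
          linarith
        have hbR : ((v : ℝ) - (K + 2)) ^ 2 ≤ 4 * (p * q) + 16 := by
          rw [← hsR]
          have h5 : (p + q) ^ 2 ≤ 4 * (p * q) + 16 := by rw [hpq]; exact hbig
          exact_mod_cast h5
        have hvR : ((K : ℝ) + 2) + 9 ≤ v := by exact_mod_cast hv
        have hKR : (0 : ℝ) ≤ K := by positivity
        push_cast
        rw [div_le_div_iff₀ (by linarith) (by linarith)]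
        have h6 : ((v : ℝ) - (K + 2)) ^ 2 - 8 * v ≤ 4 * (x - (K + 1 - 1)) := by nlinarith
        have h7 : ((v : ℝ) - (K + 1 + 1)) ^ 2 = ((v : ℝ) - (K + 2)) ^ 2 := by ring
        rw [h7]
        nlinarith)
    rw [hcard] at h
    refine ?_
    have e : cst (K + 1 + 1) v = (((v : ℝ) - ((K + 2 : ℕ) : ℝ)) ^ 2 - 8 * v) /
        (4 * (((K + 2 : ℕ) : ℝ) - 1)) := by
      unfold cst
      push_cast
      ring_nf
    rw [e] at h
    exact h

/-- for `v ≥ 6 k + 4` the additive constant is larger than `|F|` -/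
theorem beyond (k v : ℕ) (hk : 2 ≤ k) (hv : 6 * k + 4 ≤ v) :
    ∃ (V : Type) (_ : Finite V) (F : SimpleGraph V), Nat.card V = v ∧ (∃ a b, F.Adj a b) ∧
      chi F = k ∧ ∃ n₀ : ℕ, ∀ n : ℕ, n₀ ≤ n → v ∣ n →
        (1 - 1 / chiStar F) * (n : ℝ) + (v : ℝ) < (packingThreshold F n : ℝ) := by
  obtain ⟨V, hV, F, h1, h2, h3, _, n₀, h4⟩ := main k v hk (by omega)
  refine ⟨V, hV, F, h1, h2, h3, n₀, fun n hn hd => ?_⟩
  refine lt_of_le_of_lt ?_ (h4 n hn hd).2
  have hkR : (2 : ℝ) ≤ k := by exact_mod_cast hk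
  have hvR : 6 * (k : ℝ) + 4 ≤ v := by exact_mod_cast hv
  have : (v : ℝ) ≤ (((v : ℝ) - k) ^ 2 - 8 * v) / (4 * (k - 1)) := by
    rw [le_div_iff₀ (by linarith)]
    nlinarith [mul_nonneg (show (0 : ℝ) ≤ v by positivity) (sub_nonneg.2 hvR), sq_nonneg (k : ℝ)]
  linarith

/-- **The additive constant in the perfect packing threshold is at least quadratic in `|F|`, for
every chromatic number, every order and all large `n`.**

(1) For all `k ≥ 2` and `v ≥ k + 9` there is a graph `F` on `v` vertices with chromatic number `k`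
and `hcf(F) = 1` such that for ALL large `n` divisible by `v` there is a graph `G` on `n` vertices
with all degrees at least `(1 - 1 / χ*(F)) n + ((v - k)² - 8 v) / (4 (k - 1))` and without a perfect
`F`-packing; so the threshold `δ(F, n)` is larger than that number.
(2) For all `k ≥ 2` and `v ≥ 6 k + 4` there is a graph `F` on `v` vertices with chromatic number `k`
such that `δ(F, n) > (1 - 1 / χ*(F)) n + |F|` for ALL large `n` divisible by `v`.
(3) The answer to Q1 is negative for the graphs of each chromatic number `k ≥ 2`. -/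
theorem result :
    (∀ k v : ℕ, 2 ≤ k → k + 9 ≤ v →
      ∃ (V : Type) (_ : Finite V) (F : SimpleGraph V), Nat.card V = v ∧ (∃ a b, F.Adj a b) ∧
        chi F = k ∧ HcfOne F ∧ ∃ n₀ : ℕ, ∀ n : ℕ, n₀ ≤ n → v ∣ n →
        (∃ G : SimpleGraph (Fin n),
          (∀ w, (1 - 1 / chiStar F) * (n : ℝ) + (((v : ℝ) - k) ^ 2 - 8 * v) / (4 * (k - 1)) ≤
            ((G.neighborSet w).ncard : ℝ)) ∧ ¬ HasPerfectPacking F G) ∧
        (1 - 1 / chiStar F) * (n : ℝ) + (((v : ℝ) - k) ^ 2 - 8 * v) / (4 * (k - 1)) <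
          (packingThreshold F n : ℝ)) ∧
    (∀ k v : ℕ, 2 ≤ k → 6 * k + 4 ≤ v →
      ∃ (V : Type) (_ : Finite V) (F : SimpleGraph V), Nat.card V = v ∧ (∃ a b, F.Adj a b) ∧
        chi F = k ∧ ∃ n₀ : ℕ, ∀ n : ℕ, n₀ ≤ n → v ∣ n →
          (1 - 1 / chiStar F) * (n : ℝ) + (v : ℝ) < (packingThreshold F n : ℝ)) ∧
    ∀ k : ℕ, 2 ≤ k → ¬ ∀ (V : Type) (_ : Finite V) (F : SimpleGraph V), (∃ a b, F.Adj a b) →
      chi F = k → ∃ n₀ : ℕ, ∀ n : ℕ, n₀ ≤ n → Nat.card V ∣ n →
        (packingThreshold F n : ℝ) ≤ (1 - 1 / chiStar F) * (n : ℝ) + (Nat.card V : ℝ) := by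
  refine ⟨main, beyond, fun k hk h => ?_⟩
  obtain ⟨V, hV, F, h1, h2, h3, n₀, h4⟩ := beyond k (6 * k + 4) hk le_rfl
  obtain ⟨n₁, h5⟩ := h V hV F h2 h3
  have h6 := h4 ((6 * k + 4) * (n₀ + n₁)) (by nlinarith) (Dvd.intro _ rfl)
  have h7 := h5 ((6 * k + 4) * (n₀ + n₁)) (by nlinarith) (by rw [h1]; exact Dvd.intro _ rfl)
  rw [h1] at h7
  linarith

end Pool.Agent.Results.MP_130313_co.QuadraticConstant
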